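import Mathlib
import Pool.Agent.Helper62.LH.StV

set_option autoImplicit false

open Set Filter Topology MeasureTheory
open scoped ContDiff ENNReal

namespace Pool.Agent.Helper39.LH

open Helper62.LH

/-- GTG: intermediate points lie on metric geodesics -/
theorem hGtg (hMet : StMet) (hDlc : StDlc) (hMg : StMg) : StGtg := by
  intro n g hg hc x y z t ht hz
  obtain ⟨-, -, hnn, hself, hsymm, htri⟩ := hMet n g hg
  obtain ⟨-, heq, -⟩ := hDlc n g hg
  obtain ⟨hz1, hz2⟩ := hz
  rcases eq_or_lt_of_le ht.1 with h0 | h0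
  · obtain ⟨c, hc1⟩ := hMg n g hg hc x y
    refine ⟨c, hc1, ?_⟩
    subst h0
    rw [zero_mul] at hz1
    rw [hc1.1, heq x z hz1]
  rcases eq_or_lt_of_le ht.2 with h1 | h1
  · obtain ⟨c, hc1⟩ := hMg n g hg hc x y
    refine ⟨c, hc1, ?_⟩
    subst h1
    rw [sub_self, zero_mul] at hz2
    rw [hc1.2.1, heq z y hz2]
  obtain ⟨c₁, h10, h11, h1d⟩ := hMg n g hg hc x z
  obtain ⟨c₂, h20, h21, h2d⟩ := hMg n g hg hc z y
  set L : ℝ := dg g x y with hL
  have h1t : 0 < 1 - t := by linarith
  let c : ℝ → E n := fun s => if s ≤ t then c₁ (s / t) else c₂ ((s - t) / (1 - t))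
  have hcle : ∀ s, s ≤ t → c s = c₁ (s / t) := fun s hs => if_pos hs
  have hcgt : ∀ s, t < s → c s = c₂ ((s - t) / (1 - t)) := fun s hs => if_neg (not_le.2 hs)
  have mem1 : ∀ s, 0 ≤ s → s ≤ t → s / t ∈ Icc (0 : ℝ) 1 := by
    intro s hs0 hs
    exact ⟨by positivity, by rw [div_le_one h0]; exact hs⟩
  have mem2 : ∀ s, t ≤ s → s ≤ 1 → (s - t) / (1 - t) ∈ Icc (0 : ℝ) 1 := by
    intro s hs0 hs
    exact ⟨div_nonneg (by linarith) h1t.le, by rw [div_le_one h1t]; linarith⟩
  have zero_mem : (0 : ℝ) ∈ Icc (0 : ℝ) 1 := ⟨le_refl _, zero_le_one⟩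
  have one_mem : (1 : ℝ) ∈ Icc (0 : ℝ) 1 := ⟨zero_le_one, le_refl _⟩
  have hA : ∀ s s' : ℝ, 0 ≤ s → s ≤ s' → s' ≤ 1 → dg g (c s) (c s') = (s' - s) * L := by
    intro s s' hs0 hss hs1
    by_cases hs't : s' ≤ t
    · rw [hcle s (hss.trans hs't), hcle s' hs't,
        h1d _ (mem1 s hs0 (hss.trans hs't)) _ (mem1 s' (hs0.trans hss) hs't), hz1,
        abs_sub_comm, ← sub_div, abs_of_nonneg (div_nonneg (by linarith) h0.le)]
      field_simp
    · push Not at hs't
      by_cases hst : s ≤ t
      · have e1 : dg g x (c s) = s * L := by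
          have := h1d 0 zero_mem _ (mem1 s hs0 hst)
          rw [h10, ← hcle s hst, hz1, zero_sub, abs_neg,
            abs_of_nonneg (div_nonneg hs0 h0.le)] at this
          rw [this]
          field_simp
        have e2 : dg g (c s) z = (t - s) * L := by
          have := h1d _ (mem1 s hs0 hst) 1 one_mem
          rw [h11, ← hcle s hst, hz1, abs_sub_comm,
            abs_of_nonneg (by
              have := (mem1 s hs0 hst).2
              linarith)] at this
          rw [this]
          field_simp
        have e3 : dg g z (c s') = (s' - t) * L := by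
          have := h2d 0 zero_mem _ (mem2 s' hs't.le hs1)
          rw [h20, ← hcgt s' hs't, hz2, zero_sub, abs_neg,
            abs_of_nonneg (mem2 s' hs't.le hs1).1] at this
          rw [this]
          field_simp
        have e4 : dg g (c s') y = (1 - s') * L := by
          have := h2d _ (mem2 s' hs't.le hs1) 1 one_mem
          rw [h21, ← hcgt s' hs't, hz2, abs_sub_comm,
            abs_of_nonneg (by
              have := (mem2 s' hs't.le hs1).2
              linarith)] at this
          rw [this]
          field_simp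
          ring
        have u1 := htri (c s) z (c s')
        have u2 := htri x (c s) y
        have u3 := htri (c s) (c s') y
        apply le_antisymm
        · rw [e2, e3] at u1
          linarith
        · rw [← hL] at u2
          rw [e1] at u2
          rw [e4] at u3
          linarith
      · push Not at hst
        rw [hcgt s hst, hcgt s' hs't, h2d _ (mem2 s hst.le (hss.trans hs1)) _ (mem2 s' hs't.le hs1),
          hz2, abs_sub_comm, ← sub_div, abs_of_nonneg (div_nonneg (by linarith) h1t.le)]
        field_simp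
        ring
  refine ⟨c, ⟨?_, ?_, ?_⟩, ?_⟩
  · rw [hcle 0 h0.le, zero_div, h10]
  · rw [hcgt 1 h1, div_self h1t.ne', h21]
  · intro s hs s' hs'
    rcases le_total s s' with h | h
    · rw [hA s s' hs.1 h hs'.2, abs_sub_comm, abs_of_nonneg (by linarith)]
    · rw [hsymm, hA s' s hs'.1 h hs.2, abs_of_nonneg (by linarith)]
  · rw [hcle t le_rfl, div_self h0.ne', h11]

end Pool.Agent.Helper39.LH
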